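import Pool.Graph.R_seed8.TH793.SB.Main
import Mathlib

set_option autoImplicit false
open MeasureTheory

namespace Pool.Agent.Results.MP_c73c36_mp.WangCubes409

/-- Sites of the cubic lattice. -/
abbrev Z3 : Type := Fin 3 → ℤ

/-- The unit vector in direction `i`. -/
def unit (i : Fin 3) : Z3 := fun j => if j = i then 1 else 0

/-- A set of `k` Wang cubes with `c` colours: for each of the three directions, every cube has
a colour on the face where it is entered and a colour on the face where it is left. -/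
structure Cubes (k c : ℕ) where
  enter : Fin 3 → Fin k → Fin c
  leave : Fin 3 → Fin k → Fin c

variable {k c : ℕ}

/-- The broken faces of a configuration: pairs of adjacent cubes whose colours differ. -/
def broken (W : Cubes k c) (X : Z3 → Fin k) : Set (Fin 3 × Z3) :=
  {q | W.leave q.1 (X q.2) ≠ W.enter q.1 (X (q.2 + unit q.1))}

/-- A valid tiling: there are no broken faces. -/
def Valid (W : Cubes k c) (X : Z3 → Fin k) : Prop := broken W X = ∅

/-- The places at which the patch `p` with support `D` occurs in `X`. -/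
def occ (D : Finset Z3) (p X : Z3 → Fin k) : Set Z3 := {a | ∀ i ∈ D, X (i + a) = p i}

/-- The cube with corner `x` and side `L`. -/
def cube (x : Z3) (L : ℕ) : Set Z3 := {u | ∀ i, x i ≤ u i ∧ u i < x i + L}

/-- No valid tiling has a nonzero period. -/
def NonPeriodic (W : Cubes k c) : Prop :=
  ∀ X, Valid W X → ∀ a : Z3, a ≠ 0 → (fun i => X (i - a)) ≠ X

/-- There is exactly one shift-invariant probability measure on the valid tilings. -/
def UniquelyErgodic (W : Cubes k c) : Prop :=
  ∃! μ : Measure (Z3 → Fin k), IsProbabilityMeasure μ ∧ μ {X | Valid W X}ᶜ = 0 ∧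
    ∀ a : Z3, μ.map (fun X i => X (i - a)) = μ

/-- The Strict Boundary Condition: in a finite excitation of a valid tiling the number of
occurrences of every patch changes by at most a constant times the number of broken faces. -/
def StrictBoundary (W : Cubes k c) : Prop :=
  ∀ (D : Finset Z3) (p : Z3 → Fin k), ∃ C : ℝ, ∀ X Y, Valid W X → {u | Y u ≠ X u}.Finite →
    |((occ D p Y \ occ D p X).ncard : ℝ) - ((occ D p X \ occ D p Y).ncard : ℝ)| ≤
      C * ((broken W Y).ncard : ℝ)

/-- Different valid tilings differ at infinitely many sites. -/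
def Rigid (W : Cubes k c) : Prop :=
  ∀ X Y, Valid W X → Valid W Y → {u | Y u ≠ X u}.Finite → Y = X

/-- For every patch, the numbers of its occurrences in any two cubes of side `L` of any two
valid tilings differ by at most a constant times `L ^ 2`. -/
def SurfaceDiscrepancy (W : Cubes k c) : Prop :=
  ∀ (D : Finset Z3) (p : Z3 → Fin k), ∃ C : ℝ, ∀ X X', Valid W X → Valid W X' →
    ∀ (x x' : Z3) (L : ℕ), 1 ≤ L →
      |((occ D p X ∩ cube x L).ncard : ℝ) - ((occ D p X' ∩ cube x' L).ncard : ℝ)| ≤
        C * (L : ℝ) ^ 2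

section
open Pool.Agent.TH989.J591 Pool.Agent.TH793.SB
open scoped Classical

/-- The cubes of the library. -/
noncomputable def cubes : Cubes nT 127 where
  enter i t := (In i (ee.symm t) : ZMod 127)
  leave i t := (Out i (ee.symm t) + 1 : ZMod 127)

lemma mem_broken {X : Conf} {i : Fin 3} {u : Site} :
    (i, u) ∈ broken cubes X ↔ ¬ In i (tl X (u + st i 1)) = Out i (tl X u) + 1 := by
  constructor
  · intro h h'
    exact h h'.symm
  · intro h h'
    exact h (Eq.symm h')

lemma valid_iff' (X : Conf) : Valid cubes X ↔ Pool.Agent.TH793.SB.Valid (tl X) := by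
  constructor
  · intro h u i
    by_contra hne
    have : (i, u) ∈ broken cubes X := mem_broken.2 hne
    rw [h] at this
    exact this
  · intro h
    refine Set.eq_empty_iff_forall_notMem.2 ?_
    rintro ⟨i, u⟩ hq
    exact mem_broken.1 hq (h u i)

lemma set_eq : {X : Conf | Valid cubes X} = Om := Set.ext valid_iff'

lemma bad_le' {X Y : Conf} (hX : Pool.Agent.TH793.SB.Valid (tl X))
    (hf : {i | tl Y i ≠ tl X i}.Finite) : (bad (tl Y)).ncard ≤ (broken cubes Y).ncard := by
  have hb := bad_finite hX hf
  have hsub : broken cubes Y ⊆ Set.univ ×ˢ (bad (tl Y)) := by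
    rintro ⟨i, u⟩ h
    exact ⟨Set.mem_univ _, fun hg => mem_broken.1 h (hg i)⟩
  have hfin : (broken cubes Y).Finite := (Set.finite_univ.prod hb).subset hsub
  have h1 : bad (tl Y) ⊆ Prod.snd '' (broken cubes Y) := by
    intro u hu
    have : ∃ i, ¬ In i (tl Y (u + st i 1)) = Out i (tl Y u) + 1 := by
      by_contra h
      push Not at h
      exact hu h
    obtain ⟨i, hi⟩ := this
    exact ⟨(i, u), mem_broken.2 hi, rfl⟩
  exact (Set.ncard_le_ncard h1 (hfin.image _)).trans (Set.ncard_image_le hfin)

lemma occ_iff' (D : Finset Site) (p X : Conf) (a : Site) :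
    a ∈ occ D p X ↔ ∀ i ∈ D, tl X (i + a) = ee.symm (p i) := by
  simp only [occ, Set.mem_ofPred_eq, tl, EmbeddingLike.apply_eq_iff_eq]

lemma strict : StrictBoundary cubes := by
  intro D p
  obtain ⟨C, hC⟩ := sbcMain D fun u => ee.symm (p u)
  refine ⟨max C 0, fun X Y hX hf => ?_⟩
  have hX' := (valid_iff' X).1 hX
  have hf' : {i | tl Y i ≠ tl X i}.Finite := by
    refine hf.subset fun i hi h => hi ?_
    exact tl_congr h
  have hfin : (⋃ i ∈ D, (fun a : Site => i + a) ⁻¹' {i | Y i ≠ X i}).Finite := by
    refine Set.Finite.biUnion D.finite_toSet fun i _ => hf.preimage ?_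
    exact (add_right_injective i).injOn
  have hV : ∀ a ∉ hfin.toFinset, ((∀ i ∈ D, Y (i + a) = p i) ↔
      (∀ i ∈ D, X (i + a) = p i)) := by
    intro a ha
    rw [Set.Finite.mem_toFinset] at ha
    refine forall_congr' fun i => forall_congr' fun hi => ?_
    have : Y (i + a) = X (i + a) := by
      by_contra hne
      exact ha (Set.mem_biUnion hi hne)
    rw [this]
  have h0 := count_eq (P := fun a => ∀ i ∈ D, Y (i + a) = p i)
    (Q := fun a => ∀ i ∈ D, X (i + a) = p i) _ hV
  have h7 := hC (tl X) (tl Y) hX' hf'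
  simp only [ite_eq_ind] at h7
  have e : ∀ Z : Conf, ∀ a : Site, (∀ i ∈ D, tl Z (i + a) = ee.symm (p i)) ↔
      (∀ i ∈ D, Z (i + a) = p i) := by
    intro Z a
    simp only [tl, EmbeddingLike.apply_eq_iff_eq]
  simp only [e] at h7
  have h8 : ((bad (tl Y)).ncard : ℝ) ≤ ((broken cubes Y).ncard : ℝ) := by
    exact_mod_cast bad_le' hX' hf'
  have h9 : ((occ D p Y \ occ D p X).ncard : ℝ) - ((occ D p X \ occ D p Y).ncard : ℝ) =
      DD (fun a => ind (∀ i ∈ D, Y (i + a) = p i)) (fun a => ind (∀ i ∈ D, X (i + a) = p i)) := by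
    rw [← h0]
    push_cast
    rfl
  rw [h9]
  calc _ ≤ C * ((bad (tl Y)).ncard : ℝ) := h7
    _ ≤ max C 0 * ((bad (tl Y)).ncard : ℝ) :=
        mul_le_mul_of_nonneg_right (le_max_left _ _) (Nat.cast_nonneg _)
    _ ≤ _ := mul_le_mul_of_nonneg_left h8 (le_max_right _ _)

/-- The number of occurrences in a cube as a filtered count. -/
lemma count_cube (D : Finset Site) (p X : Conf) (x : Site) (L : ℕ) :
    (occ D p X ∩ WangCubes409.cube x L).ncard =
      ((Fintype.piFinset fun _ : Fin 3 => Finset.Ico (0 : ℤ) L).filter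
        fun a => ∀ i ∈ D, tl (fun u => X (u + x)) (i + a) = ee.symm (p i)).card := by
  suffices key : occ D p X ∩ WangCubes409.cube x L = (fun a => a + x) ''
      (((Fintype.piFinset fun _ : Fin 3 => Finset.Ico (0 : ℤ) L).filter
        fun a => ∀ i ∈ D, tl (fun u => X (u + x)) (i + a) = ee.symm (p i) : Finset Site) :
        Set Site) by
    rw [key, Set.ncard_image_of_injective _ (add_left_injective x), Set.ncard_coe_finset]
  ext a
  simp only [Set.mem_inter_iff, Set.mem_image, Finset.coe_filter, Fintype.mem_piFinset,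
    Finset.mem_Ico, Set.mem_ofPred_eq]
  constructor
  · rintro ⟨h1, h2⟩
    refine ⟨a - x, ⟨fun i => ?_, fun i hi => ?_⟩, sub_add_cancel _ _⟩
    · have := h2 i
      rw [Pi.sub_apply]
      omega
    · have := h1 i hi
      change ee.symm (X (i + (a - x) + x)) = _
      rw [add_assoc, sub_add_cancel, this]
  · rintro ⟨b, ⟨h1, h2⟩, rfl⟩
    refine ⟨fun i hi => ?_, fun i => ?_⟩
    · have := h2 i hi
      change ee.symm (X (i + b + x)) = _ at this
      rw [← add_assoc]
      exact ee.symm.injective this
    · have := h1 i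
      change x i ≤ b i + x i ∧ b i + x i < x i + L
      omega

lemma shift_valid {X : Conf} (h : Pool.Agent.TH793.SB.Valid (tl X)) (x : Site) :
    Pool.Agent.TH793.SB.Valid (tl fun u => X (u + x)) := by
  intro u i
  have := h (u + x) i
  change In i (ee.symm (X (u + st i 1 + x))) = Out i (ee.symm (X (u + x))) + 1
  rw [add_right_comm]
  exact this

lemma surface : SurfaceDiscrepancy cubes := by
  intro D p
  obtain ⟨C, hC⟩ := countDiff D fun u => ee.symm (p u)
  refine ⟨C, fun X X' hX hX' x x' L hL => ?_⟩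
  have := hC _ _ (shift_valid ((valid_iff' X).1 hX) x) (shift_valid ((valid_iff' X').1 hX') x')
    L hL
  rw [count_cube, count_cube]
  exact this

lemma ergodic : UniquelyErgodic cubes := by
  unfold UniquelyErgodic
  rw [set_eq]
  obtain ⟨μ, hp, hμ, hinv⟩ := invMeas 3 nT Om (Om_nonempty exist) isClosed_Om
    fun X hX a => Om_shift hX a
  refine ⟨μ, ⟨hp, hμ, hinv⟩, ?_⟩
  rintro ν ⟨hνp, hν, hνinv⟩
  refine uniqMeas 3 nT Om (by norm_num) ?_ ν μ hνp hp hν hμ hνinv hinv
  intro DA pA
  obtain ⟨C, hC⟩ := countDiff DA fun u => ee.symm (pA u)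
  refine ⟨C, fun X hX X' hX' L hL => ?_⟩
  have := hC (tl X) (tl X') hX hX' L hL
  have e : ∀ Z : Conf, ∀ a : Site, (∀ i ∈ DA, tl Z (i + a) = ee.symm (pA i)) ↔
      (∀ i ∈ DA, Z (i + a) = pA i) := by
    intro Z a
    simp only [tl, EmbeddingLike.apply_eq_iff_eq]
  simp only [e] at this
  convert this using 2

lemma rigid' : Rigid cubes := by
  intro X Y hX hY hf
  have hf' : {i | tl Y i ≠ tl X i}.Finite := by
    refine hf.subset fun i hi h => hi ?_
    exact tl_congr h
  have := rigid _ _ ((valid_iff' X).1 hX) ((valid_iff' Y).1 hY) hf'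
  funext u
  exact ee.symm.injective (congrFun this u)

lemma nonper : NonPeriodic cubes := by
  intro X hX a ha hXa
  apply ha
  apply noPer (tl X) ((valid_iff' X).1 hX) a
  intro u
  exact tl_congr (X := fun i => X (i - a)) (Y := X) (congrFun hXa u)

lemma card_tiles : Fintype.card Tile = 409 := by
  simp [Tile, ZMod.card]

end

/-- There are 409 Wang cubes with 127 colours which tile space, only non-periodically, are
uniquely ergodic with surface discrepancy, rigid, and satisfy the Strict Boundary Condition. -/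
theorem result : ∃ W : Cubes 409 127, (∃ X, Valid W X) ∧ NonPeriodic W ∧ UniquelyErgodic W ∧
    StrictBoundary W ∧ Rigid W ∧ SurfaceDiscrepancy W := by
  rw [← card_tiles]
  refine ⟨cubes, ?_, nonper, ergodic, strict, rigid', surface⟩
  obtain ⟨X, hX⟩ := Pool.Agent.TH989.J591.Om_nonempty Pool.Agent.TH793.SB.exist
  exact ⟨X, (valid_iff' X).2 hX⟩

end Pool.Agent.Results.MP_c73c36_mp.WangCubes409
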